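import Pool.Agent.H.MP_405479_al.TypeThree

set_option autoImplicit false

namespace Pool.Agent.Results.MP_405479_al.ImageIsMathieu

open Polynomial

universe u

/-- The `A`-linear map `D = c d/dt - a(t)` of `A[t]`: `D(h) = c h' - a h`. -/
noncomputable def D {A : Type u} [CommRing A] (c : A) (a : A[X]) : A[X] →ₗ[A] A[X] where
  toFun h := C c * derivative h - a * h
  map_add' h k := by simp only [derivative_add]; ring
  map_smul' r h := by
    simp only [smul_eq_C_mul, derivative_C_mul, RingHom.id_apply]; ring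

/-- The image of `D`, an `A`-submodule of `A[t]`. -/
noncomputable def ImD {A : Type u} [CommRing A] (c : A) (a : A[X]) : Submodule A A[X] :=
  LinearMap.range (D c a)

/-- The radical of an additive subgroup `V` of a commutative ring: the set of all `f` such that
`f ^ m` lies in `V` for all sufficiently large `m`. -/
def radical {B : Type u} [CommRing B] (V : AddSubgroup B) : Set B :=
  {f | ∃ N : ℕ, ∀ m : ℕ, N ≤ m → f ^ m ∈ V}

/-- `V` is a Mathieu subspace of `B`: for every `f` in the radical of `V` and every `g` in `B`,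
`g f ^ m` lies in `V` for all sufficiently large `m`. -/
def IsMathieuSubspace {B : Type u} [CommRing B] (V : AddSubgroup B) : Prop :=
  ∀ f ∈ radical V, ∀ g : B, ∃ N : ℕ, ∀ m : ℕ, N ≤ m → g * f ^ m ∈ V

/-- Lifting a polynomial to a subalgebra containing its coefficients. -/
lemma exists_lift {A : Type u} [CommRing A] [Algebra ℚ A] (B : Subalgebra ℚ A) (q : A[X])
    (hq : ∀ i, q.coeff i ∈ B) : ∃ q0 : B[X], q0.map B.val.toRingHom = q := by
  have h : q ∈ lifts B.val.toRingHom := by
    rw [lifts_iff_coeff_lifts]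
    intro i
    exact ⟨⟨_, hq i⟩, rfl⟩
  exact (mem_lifts q).mp h

open Pool.Agent.H.MP_405479_al in
/-- The case in which all powers of `f` lie in the image. -/
lemma all_powers {A : Type u} [CommRing A] [Algebra ℚ A] (c : A) (a f g : A[X])
    (hyp : ∀ m : ℕ, 1 ≤ m → ∃ h : A[X], C c * derivative h - a * h = f ^ m) :
    ∃ N : ℕ, ∀ m : ℕ, N ≤ m → ∃ h : A[X], C c * derivative h - a * h = g * f ^ m := by
  obtain ⟨p, hp, hlt, hmod⟩ := Nat.exists_prime_gt_modEq_one (k := f.natDegree.factorial)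
    (a.natDegree + 1) (Nat.factorial_ne_zero _)
  have : Fact p.Prime := ⟨hp⟩
  have hdiv : ∀ n, 1 ≤ n → n ≤ f.natDegree → n ∣ p - 1 := by
    intro n hn1 hn2
    have h1 : f.natDegree.factorial ∣ p - 1 := (Nat.modEq_iff_dvd' hp.one_lt.le).mp hmod.symm
    exact (Nat.dvd_factorial hn1 hn2).trans h1
  choose h hh using fun m : ℕ => fun hm : 1 ≤ m => hyp m hm
  let H : ℕ → A[X] := fun m => if hm : 1 ≤ m then h m hm else 0
  have hH : ∀ m, 1 ≤ m → C c * derivative (H m) - a * H m = f ^ m := by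
    intro m hm
    simp only [H, dif_pos hm]
    exact hh m hm
  let s : Set A := {c} ∪ ((a.coeffs : Set A) ∪ (f.coeffs : Set A) ∪ (g.coeffs : Set A)) ∪
    ⋃ m ∈ Finset.range (p + 1), ((H m).coeffs : Set A)
  have hs : s.Finite := by
    refine Set.Finite.union (Set.Finite.union (Set.finite_singleton _) ?_) ?_
    · exact ((Finset.finite_toSet _).union (Finset.finite_toSet _)).union (Finset.finite_toSet _)
    · exact Set.Finite.biUnion (Finset.finite_toSet _) fun _ _ => Finset.finite_toSet _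
  let B : Subalgebra ℚ A := Algebra.adjoin ℚ s
  have hBfg : B.FG := ⟨hs.toFinset, by rw [Set.Finite.coe_toFinset]⟩
  have hft : Algebra.FiniteType ℚ B := (Subalgebra.fg_iff_finiteType B).mp hBfg
  have hnoeth : IsNoetherianRing B := Algebra.FiniteType.isNoetherianRing ℚ B
  have hsB : ∀ z ∈ s, z ∈ B := fun z hz => Algebra.subset_adjoin hz
  have hcoef : ∀ q : A[X], (q.coeffs : Set A) ⊆ s → ∀ i, q.coeff i ∈ B := by
    intro q hq i
    by_cases h0 : q.coeff i = 0
    · rw [h0]; exact B.zero_mem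
    · exact hsB _ (hq (coeff_mem_coeffs h0))
  obtain ⟨a0, ha0⟩ := exists_lift B a (hcoef a fun z hz => Or.inl (Or.inr (Or.inl (Or.inl hz))))
  obtain ⟨f0, hf0⟩ := exists_lift B f (hcoef f fun z hz => Or.inl (Or.inr (Or.inl (Or.inr hz))))
  obtain ⟨g0, hg0⟩ := exists_lift B g (hcoef g fun z hz => Or.inl (Or.inr (Or.inr hz)))
  have hHl : ∀ m, m ≤ p → ∃ q0 : B[X], q0.map B.val.toRingHom = H m := by
    intro m hm
    refine exists_lift B (H m) (hcoef (H m) fun z hz => Or.inr ?_)
    exact Set.mem_biUnion (Finset.mem_coe.mpr (Finset.mem_range.mpr (Nat.lt_succ_of_le hm))) hz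
  let c0 : B := ⟨c, hsB c (Or.inl (Or.inl rfl))⟩
  have hc0 : B.val.toRingHom c0 = c := rfl
  have hinj : Function.Injective B.val.toRingHom := Subtype.val_injective
  have hpinj : Function.Injective (Polynomial.map B.val.toRingHom) :=
    Polynomial.map_injective _ hinj
  have hpow : ∀ m, 1 ≤ m → m ≤ p → ∃ h0, Dop c0 a0 h0 = f0 ^ m := by
    intro m hm1 hm2
    obtain ⟨h0, hh0⟩ := hHl m hm2
    refine ⟨h0, hpinj ?_⟩
    rw [Dop_map, hc0, ha0, hh0, Polynomial.map_pow, hf0]
    exact hH m hm1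
  have hadeg : a0.natDegree = a.natDegree := by
    rw [← ha0, natDegree_map_eq_of_injective hinj]
  have hfdeg : f0.natDegree = f.natDegree := by
    rw [← hf0, natDegree_map_eq_of_injective hinj]
  obtain ⟨N, hN⟩ := noetherian_case p c0 a0 f0 g0 (by rw [hadeg]; exact hlt)
    (by rw [hfdeg]; exact hdiv) hpow
  refine ⟨N, fun m hm => ?_⟩
  obtain ⟨u, hu⟩ := hN m hm
  refine ⟨u.map B.val.toRingHom, ?_⟩
  have h1 := congrArg (Polynomial.map B.val.toRingHom) hu
  rw [Dop_map, hc0, ha0, Polynomial.map_mul, Polynomial.map_pow, hf0, hg0] at h1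
  exact h1

/-- For every commutative `ℚ`-algebra `A`, every `c` in `A` and every `a(t)` in `A[t]`, the image
of `D = c d/dt - a(t)` is a Mathieu subspace of `A[t]`. -/
theorem result (A : Type u) [CommRing A] [Algebra ℚ A] (c : A) (a : A[X]) :
    IsMathieuSubspace (ImD c a).toAddSubgroup := by
  rintro f ⟨M, hM⟩ g
  -- pass to a power of `f`, all of whose powers lie in the image
  set q : ℕ := M + 1 with hq
  have hyp : ∀ m : ℕ, 1 ≤ m → ∃ h : A[X], C c * derivative h - a * h = (f ^ q) ^ m := by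
    intro m hm
    have h1 : M ≤ q * m := by nlinarith
    obtain ⟨h, hh⟩ := hM (q * m) h1
    exact ⟨h, by rw [← pow_mul]; exact hh⟩
  choose N hN using fun r : ℕ => all_powers c a (f ^ q) (g * f ^ r) hyp
  refine ⟨q * ((Finset.range q).sup N), fun m hm => ?_⟩
  have hq0 : 0 < q := Nat.succ_pos M
  have hr : m % q < q := Nat.mod_lt _ hq0
  have h1 : (Finset.range q).sup N ≤ m / q := (Nat.le_div_iff_mul_le hq0).mpr (by
    rw [mul_comm]; exact hm)
  have h2 : N (m % q) ≤ m / q := (Finset.le_sup (Finset.mem_range.mpr hr)).trans h1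
  obtain ⟨h, hh⟩ := hN (m % q) (m / q) h2
  refine ⟨h, ?_⟩
  have h3 : g * f ^ (m % q) * (f ^ q) ^ (m / q) = g * f ^ m := by
    rw [← pow_mul, mul_assoc, ← pow_add, Nat.mod_add_div]
  rw [← h3]
  exact hh

end Pool.Agent.Results.MP_405479_al.ImageIsMathieu
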